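import Pool.Agent.H41.Spam

set_option autoImplicit false

namespace Pool.Agent.Results.MP_590456_lc.Disproof

open scoped NNReal ENNReal
open MeasureTheory Pool.Agent.H41.Spam

/-- The sample point ω carries the random bits of the algorithm and the classifier errors
(`err ω i` says that the i-th published post is misclassified); their joint law μ is arbitrary.
For every randomized algorithm, every constant c and every L ≥ 1 there is an adversary (a fixed
schedule of N posts with time steps in 1..L and types good/bad, bad IDs always paying) with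
E[C] > c (E[T]^(2/3) + E[P_G]). -/
theorem result {Ω : Type} [MeasurableSpace Ω] (μ : Measure Ω) [IsProbabilityMeasure μ]
    (err : Ω → ℕ → Bool) (herr : ∀ i, Measurable fun ω => err ω i)
    (A : Ω → List (ℕ × Bool) → ℕ → ℝ≥0) (hA : ∀ h t, Measurable fun ω => A ω h t)
    (c : ℝ≥0) (L : ℕ) (hL : 1 ≤ L) :
    ∃ (N : ℕ) (time : ℕ → ℕ) (good : ℕ → Bool), Monotone time ∧ (∀ i, 1 ≤ time i ∧ time i ≤ L) ∧
      (c : ℝ≥0∞) * ((∫⁻ ω, (rateT L N (A ω) time good (err ω) : ℝ≥0∞) ∂μ) ^ (2 / 3 : ℝ) +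
        (rateP L N good : ℝ≥0∞)) < ∫⁻ ω, (rateC L N (A ω) time good (err ω) : ℝ≥0∞) ∂μ := by
  obtain ⟨N, hN⟩ := exists_nat_gt (c ^ 3 * (c + 1) ^ 2 * L)
  obtain ⟨g, hg⟩ := main μ err herr A hA c L hL N hN (fun _ => 1)
  exact ⟨N, fun _ => 1, g, monotone_const, fun _ => ⟨le_rfl, hL⟩, hg⟩

end Pool.Agent.Results.MP_590456_lc.Disproof
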